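import Pool.Agent.helper14.EX1.Defs

/-!
# PD-EvD: the strip and the expected number of visits of the free letter walk
-/

namespace Pool.Agent.helper82.PD

open Finset Pool.Agent.helper14.EX1

/-- The state (number of letters `l`, sum `A`) is in the strip: `2 ^ A / 3 ^ l ∈ [X, 2 X)`. -/
def St (X : ℝ) (l A : ℕ) : Prop := X * 3 ^ l ≤ 2 ^ A ∧ (2 : ℝ) ^ A < 2 * X * 3 ^ l

open Classical in
/-- The expected number of visits to the strip at the levels `l, …, l + r` of the letter walk from `(l, A)` (letters `≤ K`). -/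
noncomputable def ev (K : ℕ) (X : ℝ) : ℕ → ℕ → ℕ → ℝ
  | 0, l, A => if St X l A then 1 else 0
  | r + 1, l, A => (if St X l A then 1 else 0) + ∑ B ∈ Icc 1 K, (1 / 2 : ℝ) ^ B * ev K X r (l + 1) (A + B)

end Pool.Agent.helper82.PD
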