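import Pool.Agent.helper82.PD.EvD
import Pool.Agent.helper14.EX1.CheN

/-!
# PD-Ev: bounds for the expected number of visits

`R = sqrt (X 3 ^ l / 2 ^ A)`; one letter multiplies `R` by `sqrt (3 / 2 ^ B)`, of mean `≤ 0.949` under the weights `2⁻ᴮ`.
Upper bound: `28 min (1, R)` is a supersolution.  Lower bound: below the strip, the least letter which crosses has at least half of
the weight of the letters which cross (the letters have no memory), and it leads into the strip.
-/

namespace Pool.Agent.helper82.PD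

open Finset Pool.Agent.helper14.EX1

/-- the ratio -/
noncomputable def Ev_R (X : ℝ) (l A : ℕ) : ℝ := Real.sqrt (X * 3 ^ l / 2 ^ A)

theorem Ev_R_nn (X : ℝ) (l A : ℕ) : 0 ≤ Ev_R X l A := Real.sqrt_nonneg _

/-- one letter -/
theorem Ev_R_step (X : ℝ) (l A B : ℕ) :
    (1 / 2 : ℝ) ^ B * Ev_R X (l + 1) (A + B) = Real.sqrt 3 * (1 / 2 * Real.sqrt (1 / 2)) ^ B * Ev_R X l A := by
  unfold Ev_R
  have h : X * 3 ^ (l + 1) / 2 ^ (A + B) = (3 * (1 / 2 : ℝ) ^ B) * (X * 3 ^ l / 2 ^ A) := by
    rw [pow_succ, pow_add, one_div, inv_pow]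
    field_simp
  rw [h, Real.sqrt_mul (by positivity), Real.sqrt_mul (by norm_num), mul_pow]
  have h2 : Real.sqrt ((1 / 2 : ℝ) ^ B) = Real.sqrt (1 / 2) ^ B := by
    rw [Real.sqrt_eq_rpow, Real.sqrt_eq_rpow, ← Real.rpow_natCast, ← Real.rpow_natCast,
      ← Real.rpow_mul (by norm_num), ← Real.rpow_mul (by norm_num), mul_comm]
  rw [h2]
  ring

theorem Ev_geo (K : ℕ) : Real.sqrt 3 * ∑ B ∈ Icc 1 K, (1 / 2 * Real.sqrt (1 / 2)) ^ B ≤ 949 / 1000 := by
  have h3 : Real.sqrt 3 ≤ 17321 / 10000 := by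
    rw [Real.sqrt_le_left (by norm_num)]
    norm_num
  have h2 : Real.sqrt (1 / 2) ≤ 70711 / 100000 := by
    rw [Real.sqrt_le_left (by norm_num)]
    norm_num
  have h20 : 0 ≤ Real.sqrt (1 / 2) := Real.sqrt_nonneg _
  set y : ℝ := 1 / 2 * Real.sqrt (1 / 2) with hy
  have hy0 : 0 ≤ y := by positivity
  have hy1 : y ≤ 35356 / 100000 := by
    rw [hy]
    linarith
  have h4 := CheN_geo hy0 (by linarith) K
  have h5 : y / (1 - y) ≤ 5471 / 10000 := by
    rw [div_le_iff₀ (by linarith)]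
    linarith
  have h6 : 0 ≤ ∑ B ∈ Icc 1 K, y ^ B := sum_nonneg fun _ _ => by positivity
  calc Real.sqrt 3 * ∑ B ∈ Icc 1 K, y ^ B ≤ 17321 / 10000 * (5471 / 10000) :=
        mul_le_mul h3 (h4.trans h5) h6 (by norm_num)
    _ ≤ 949 / 1000 := by norm_num

/-- the mean of the ratio after one letter -/
theorem Ev_R_sum (K : ℕ) (X : ℝ) (l A : ℕ) :
    ∑ B ∈ Icc 1 K, (1 / 2 : ℝ) ^ B * Ev_R X (l + 1) (A + B) ≤ 949 / 1000 * Ev_R X l A := by
  have h : ∑ B ∈ Icc 1 K, (1 / 2 : ℝ) ^ B * Ev_R X (l + 1) (A + B) =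
      (Real.sqrt 3 * ∑ B ∈ Icc 1 K, (1 / 2 * Real.sqrt (1 / 2)) ^ B) * Ev_R X l A := by
    rw [mul_sum, sum_mul]
    exact sum_congr rfl fun B _ => Ev_R_step X l A B
  rw [h]
  exact mul_le_mul_of_nonneg_right (Ev_geo K) (Ev_R_nn X l A)

theorem ev_nn (K : ℕ) (X : ℝ) (r l A : ℕ) : 0 ≤ ev K X r l A := by
  classical
  induction r generalizing l A with
  | zero =>
    simp only [ev]
    split_ifs <;> norm_num
  | succ r ih =>
    simp only [ev]
    have h1 : (0 : ℝ) ≤ if St X l A then 1 else 0 := by split_ifs <;> norm_num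
    have h2 : 0 ≤ ∑ B ∈ Icc 1 K, (1 / 2 : ℝ) ^ B * ev K X r (l + 1) (A + B) :=
      sum_nonneg fun B _ => mul_nonneg (by positivity) (ih _ _)
    linarith

/-- in the strip at least one visit -/
theorem ev_one (K : ℕ) {X : ℝ} (r : ℕ) {l A : ℕ} (h : St X l A) : 1 ≤ ev K X r l A := by
  classical
  cases r with
  | zero =>
    simp only [ev]
    rw [if_pos h]
  | succ r =>
    simp only [ev]
    rw [if_pos h]
    have h2 : 0 ≤ ∑ B ∈ Icc 1 K, (1 / 2 : ℝ) ^ B * ev K X r (l + 1) (A + B) :=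
      sum_nonneg fun B _ => mul_nonneg (by positivity) (ev_nn _ _ _ _ _)
    linarith

theorem Ev_strip {X : ℝ} (hX : 0 < X) {l A : ℕ} (h : St X l A) :
    Ev_R X l A ≤ 1 ∧ 1 ≤ 14143 / 10000 * Ev_R X l A := by
  obtain ⟨h1, h2⟩ := h
  have hA : (0 : ℝ) < 2 ^ A := by positivity
  unfold Ev_R
  constructor
  · rw [Real.sqrt_le_one]
    rw [div_le_one hA]
    exact h1
  · have h3 : (1 : ℝ) / 2 ≤ X * 3 ^ l / 2 ^ A := by
      rw [div_le_div_iff₀ (by norm_num) hA]
      linarith
    have h4 : Real.sqrt (1 / 2) ≤ Real.sqrt (X * 3 ^ l / 2 ^ A) := Real.sqrt_le_sqrt h3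
    have h5 : (70710 : ℝ) / 100000 ≤ Real.sqrt (1 / 2) := by
      apply Real.le_sqrt_of_sq_le
      norm_num
    linarith

theorem Ev_sum_half (K : ℕ) : ∑ B ∈ Icc 1 K, (1 / 2 : ℝ) ^ B ≤ 1 := by
  have h := CheN_geo (y := 1 / 2) (by norm_num) (by norm_num) K
  norm_num at h ⊢
  exact h

/-- the supersolution -/
theorem Ev_up (K : ℕ) {X : ℝ} (hX : 0 < X) (r l A : ℕ) : ev K X r l A ≤ 28 * min 1 (Ev_R X l A) := by
  classical
  induction r generalizing l A with
  | zero =>
    simp only [ev]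
    split_ifs with h
    · obtain ⟨h1, h2⟩ := Ev_strip hX h
      rw [min_eq_right h1]
      linarith
    · have := Ev_R_nn X l A
      positivity
  | succ r ih =>
    simp only [ev]
    by_cases hR : Ev_R X l A ≤ 1
    · rw [min_eq_right hR]
      have h1 : ∑ B ∈ Icc 1 K, (1 / 2 : ℝ) ^ B * ev K X r (l + 1) (A + B) ≤
          28 * (949 / 1000 * Ev_R X l A) := by
        calc ∑ B ∈ Icc 1 K, (1 / 2 : ℝ) ^ B * ev K X r (l + 1) (A + B)
            ≤ ∑ B ∈ Icc 1 K, (1 / 2 : ℝ) ^ B * (28 * Ev_R X (l + 1) (A + B)) := by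
              apply sum_le_sum
              intro B _
              apply mul_le_mul_of_nonneg_left _ (by positivity)
              refine (ih _ _).trans ?_
              exact mul_le_mul_of_nonneg_left (min_le_right _ _) (by norm_num)
          _ = 28 * ∑ B ∈ Icc 1 K, (1 / 2 : ℝ) ^ B * Ev_R X (l + 1) (A + B) := by
              rw [mul_sum]
              exact sum_congr rfl fun B _ => by ring
          _ ≤ _ := mul_le_mul_of_nonneg_left (Ev_R_sum K X l A) (by norm_num)
      have h2 : (if St X l A then (1 : ℝ) else 0) ≤ 14143 / 10000 * Ev_R X l A := by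
        split_ifs with h
        · exact (Ev_strip hX h).2
        · have := Ev_R_nn X l A
          positivity
      have h3 := Ev_R_nn X l A
      linarith
    · rw [min_eq_left (not_le.1 hR).le]
      have hn : ¬ St X l A := fun h => hR (Ev_strip hX h).1
      rw [if_neg hn]
      have h1 : ∑ B ∈ Icc 1 K, (1 / 2 : ℝ) ^ B * ev K X r (l + 1) (A + B) ≤
          ∑ B ∈ Icc 1 K, (1 / 2 : ℝ) ^ B * 28 := by
        apply sum_le_sum
        intro B _
        apply mul_le_mul_of_nonneg_left _ (by positivity)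
        refine (ih _ _).trans ?_
        have := min_le_left (1 : ℝ) (Ev_R X (l + 1) (A + B))
        linarith
      rw [← sum_mul] at h1
      have := Ev_sum_half K
      linarith

theorem ev_le (K : ℕ) {X : ℝ} (hX : 0 < X) (r l A : ℕ) : ev K X r l A ≤ 28 := by
  refine (Ev_up K hX r l A).trans ?_
  have := min_le_left (1 : ℝ) (Ev_R X l A)
  linarith

theorem ev_le' (K : ℕ) {X : ℝ} (hX : 0 < X) (r l A : ℕ) :
    ev K X r l A ≤ 28 * Real.sqrt (X * 3 ^ l / 2 ^ A) := by
  refine (Ev_up K hX r l A).trans ?_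
  exact mul_le_mul_of_nonneg_left (min_le_right _ _) (by norm_num)

/-- the letters `≥ B0` have at most twice the weight of `B0` -/
theorem Ev_tail (B0 K : ℕ) : ∑ B ∈ Icc B0 K, (1 / 2 : ℝ) ^ B ≤ 2 * (1 / 2) ^ B0 := by
  by_cases h : B0 ≤ K
  · obtain ⟨d, rfl⟩ := Nat.exists_eq_add_of_le h
    have : ∑ B ∈ Icc B0 (B0 + d), (1 / 2 : ℝ) ^ B = 2 * (1 / 2) ^ B0 - (1 / 2) ^ (B0 + d) := by
      induction d with
      | zero => simp; ring
      | succ d ih =>
        rw [show B0 + (d + 1) = (B0 + d) + 1 by ring, sum_Icc_succ_top (by omega), ih (by omega), pow_succ]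
        ring
    rw [this]
    have : (0 : ℝ) ≤ (1 / 2) ^ (B0 + d) := by positivity
    linarith
  · rw [Icc_eq_empty h, sum_empty]
    positivity

theorem ev_low (K : ℕ) {X : ℝ} (hX : 0 < X) (r l A : ℕ) (hA : (2 : ℝ) ^ A < X * 3 ^ l) :
    (th K ^ r - (19 / 20) ^ r * Real.sqrt (X * 3 ^ l / 2 ^ A)) / 2 ≤ ev K X r l A := by
  classical
  have hth0 : 0 ≤ th K := by
    unfold th
    have : (1 / 2 : ℝ) ^ K ≤ 1 := pow_le_one₀ (by norm_num) (by norm_num)
    linarith
  have hth1 : th K ≤ 1 := by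
    unfold th
    have : (0 : ℝ) ≤ (1 / 2 : ℝ) ^ K := by positivity
    linarith
  change (th K ^ r - (19 / 20) ^ r * Ev_R X l A) / 2 ≤ _
  induction r generalizing l A with
  | zero =>
    have h1 : 1 ≤ Ev_R X l A := by
      unfold Ev_R
      rw [Real.one_le_sqrt, one_le_div (by positivity)]
      exact hA.le
    have := ev_nn K X 0 l A
    rw [pow_zero, pow_zero]
    linarith
  | succ r ih =>
    have hn : ¬ St X l A := fun h => absurd h.1 (not_le.2 hA)
    simp only [ev]
    rw [if_neg hn, zero_add]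
    -- the letters which cross
    set P : ℕ → Prop := fun B => X * 3 ^ (l + 1) ≤ 2 ^ (A + B) with hP
    have hmono : ∀ B B', B ≤ B' → P B → P B' := by
      intro B B' hB h
      refine h.trans ?_
      exact pow_le_pow_right₀ (by norm_num) (by omega)
    have key : ∑ B ∈ Icc 1 K, (1 / 2 : ℝ) ^ B * ((th K ^ r - (19 / 20) ^ r * Ev_R X (l + 1) (A + B)) / 2) ≤
        ∑ B ∈ Icc 1 K, (1 / 2 : ℝ) ^ B * ev K X r (l + 1) (A + B) := by
      rw [← sum_filter_add_sum_filter_not (Icc 1 K) P, ← sum_filter_add_sum_filter_not (Icc 1 K) P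
        (fun B => (1 / 2 : ℝ) ^ B * ev K X r (l + 1) (A + B))]
      apply add_le_add
      · -- crossing letters
        rcases (Finset.filter P (Icc 1 K)).eq_empty_or_nonempty with he | hne
        · rw [he]
          simp
        · obtain ⟨B0, hB0, hmin⟩ : ∃ B0 ∈ Finset.filter P (Icc 1 K), ∀ B ∈ Finset.filter P (Icc 1 K), B0 ≤ B := by
            refine ⟨_, Finset.min'_mem _ hne, fun B hB => Finset.min'_le _ B hB⟩
          obtain ⟨hB0', hPB0⟩ := mem_filter.1 hB0
          obtain ⟨hB01, hB0K⟩ := mem_Icc.1 hB0'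
          have hsub : Finset.filter P (Icc 1 K) ⊆ Icc B0 K := by
            intro B hB
            exact mem_Icc.2 ⟨hmin B hB, (mem_Icc.1 (mem_filter.1 hB).1).2⟩
          have hstrip : St X (l + 1) (A + B0) := by
            refine ⟨hPB0, ?_⟩
            have hlt : (2 : ℝ) ^ (A + (B0 - 1)) < X * 3 ^ (l + 1) := by
              rcases Nat.eq_or_lt_of_le hB01 with h1 | h1
              · rw [← h1]
                have h3 : X * 3 ^ (l + 1) = 3 * (X * 3 ^ l) := by
                  rw [pow_succ]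
                  ring
                rw [h3]
                have : (0 : ℝ) < X * 3 ^ l := by positivity
                simp only [Nat.sub_self, add_zero]
                linarith
              · by_contra hcon
                have hPB : P (B0 - 1) := not_lt.1 hcon
                have := hmin (B0 - 1) (mem_filter.2 ⟨mem_Icc.2 ⟨by omega, by omega⟩, hPB⟩)
                omega
            have e1 : (2 : ℝ) ^ (A + B0) = 2 * 2 ^ (A + (B0 - 1)) := by
              rw [show A + B0 = (A + (B0 - 1)) + 1 by omega, pow_succ]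
              ring
            rw [e1]
            linarith
          calc ∑ B ∈ Finset.filter P (Icc 1 K), (1 / 2 : ℝ) ^ B *
                ((th K ^ r - (19 / 20) ^ r * Ev_R X (l + 1) (A + B)) / 2)
              ≤ ∑ B ∈ Finset.filter P (Icc 1 K), (1 / 2 : ℝ) ^ B * (1 / 2) := by
                apply sum_le_sum
                intro B _
                apply mul_le_mul_of_nonneg_left _ (by positivity)
                have h1 : th K ^ r ≤ 1 := pow_le_one₀ hth0 hth1
                have h2 : 0 ≤ (19 / 20 : ℝ) ^ r * Ev_R X (l + 1) (A + B) :=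
                  mul_nonneg (by positivity) (Ev_R_nn _ _ _)
                linarith
            _ ≤ ∑ B ∈ Icc B0 K, (1 / 2 : ℝ) ^ B * (1 / 2) :=
                sum_le_sum_of_subset_of_nonneg hsub fun _ _ _ => by positivity
            _ = (∑ B ∈ Icc B0 K, (1 / 2 : ℝ) ^ B) * (1 / 2) := by rw [sum_mul]
            _ ≤ (1 / 2) ^ B0 := by
                have := Ev_tail B0 K
                linarith
            _ ≤ (1 / 2 : ℝ) ^ B0 * ev K X r (l + 1) (A + B0) := by
                have := ev_one K r hstrip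
                have h0 : (0 : ℝ) ≤ (1 / 2 : ℝ) ^ B0 := by positivity
                nlinarith
            _ ≤ _ := by
                apply Finset.single_le_sum (f := fun B => (1 / 2 : ℝ) ^ B * ev K X r (l + 1) (A + B))
                  (fun B _ => mul_nonneg (by positivity) (ev_nn _ _ _ _ _)) hB0
      · apply sum_le_sum
        intro B hB
        apply mul_le_mul_of_nonneg_left _ (by positivity)
        exact ih (l + 1) (A + B) (not_le.1 (mem_filter.1 hB).2)
    refine le_trans ?_ key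
    have e1 : ∑ B ∈ Icc 1 K, (1 / 2 : ℝ) ^ B * ((th K ^ r - (19 / 20) ^ r * Ev_R X (l + 1) (A + B)) / 2) =
        (th K ^ r * ∑ B ∈ Icc 1 K, (1 / 2 : ℝ) ^ B -
          (19 / 20) ^ r * ∑ B ∈ Icc 1 K, (1 / 2 : ℝ) ^ B * Ev_R X (l + 1) (A + B)) / 2 := by
      rw [mul_sum, mul_sum, ← sum_sub_distrib, sum_div]
      exact sum_congr rfl fun B _ => by ring
    rw [e1, th_eq]
    have h2 := Ev_R_sum K X l A
    have h3 : (19 / 20 : ℝ) ^ r * ∑ B ∈ Icc 1 K, (1 / 2 : ℝ) ^ B * Ev_R X (l + 1) (A + B) ≤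
        (19 / 20 : ℝ) ^ r * (949 / 1000 * Ev_R X l A) :=
      mul_le_mul_of_nonneg_left h2 (by positivity)
    have h4 : (19 / 20 : ℝ) ^ r * (949 / 1000 * Ev_R X l A) ≤ (19 / 20 : ℝ) ^ (r + 1) * Ev_R X l A := by
      rw [pow_succ]
      have : 0 ≤ (19 / 20 : ℝ) ^ r * Ev_R X l A := mul_nonneg (by positivity) (Ev_R_nn _ _ _)
      nlinarith
    have h5 : th K ^ (r + 1) = th K ^ r * th K := pow_succ _ _
    rw [h5]
    linarith

end Pool.Agent.helper82.PD
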