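import Pool.Agent.helper49.PDR.Defs
import Pool.Agent.helper14.EX1.Che2

/-!
# PD-Rul: the rule `Typ e` (sum and number of circuits)
-/

namespace Pool.Agent.helper82.PD

open Finset Pool.Agent.helper14.EX1 Pool.Agent.helper49.PDR

theorem Rul_rr (k k' : ℕ) : rr k k' ≤ 1 := by
  unfold rr
  split_ifs <;> omega

theorem Rul_append (u v : List ℕ) : Rw u + Rw v ≤ Rw (u ++ v) ∧ Rw (u ++ v) ≤ Rw u + Rw v + 1 := by
  induction u with
  | nil => simp [Rw]
  | cons a u ih =>
    cases u with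
    | nil =>
      cases v with
      | nil => simp [Rw]
      | cons b v =>
        have h1 : Rw ([a] ++ b :: v) = rr a b + Rw (b :: v) := rfl
        have h2 : Rw [a] = 0 := rfl
        have h3 := Rul_rr a b
        omega
    | cons b u =>
      have h1 : Rw ((a :: b :: u) ++ v) = rr a b + Rw ((b :: u) ++ v) := rfl
      have h2 : Rw (a :: b :: u) = rr a b + Rw (b :: u) := rfl
      omega

/-- The exceptional words. -/
def Rul_B (e : ℝ) (v : List ℕ) : Prop :=
  e * v.length < |(v.sum : ℝ) - 2 * v.length| ∨ e * v.length - 1 < |(Rw v : ℝ) - v.length / 2|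

theorem Rul_split {e : ℝ} {u v : List ℕ} (hu : Typ e u) (h : ¬ Typ e (u ++ v)) : Rul_B e v := by
  by_contra hcon
  unfold Rul_B at hcon
  rw [not_or, not_lt, not_lt] at hcon
  obtain ⟨h1, h2⟩ := hcon
  obtain ⟨h3, h4⟩ := hu
  apply h
  have hl : (((u ++ v).length : ℕ) : ℝ) = u.length + v.length := by
    rw [List.length_append, Nat.cast_add]
  have hs : (((u ++ v).sum : ℕ) : ℝ) = u.sum + v.sum := by
    rw [List.sum_append, Nat.cast_add]
  obtain ⟨r1, r2⟩ := Rul_append u v
  have r1' : (Rw u : ℝ) + Rw v ≤ Rw (u ++ v) := by exact_mod_cast r1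
  have r2' : (Rw (u ++ v) : ℝ) ≤ Rw u + Rw v + 1 := by exact_mod_cast r2
  constructor
  · rw [hl, hs]
    rw [abs_le] at h1 h3 ⊢
    constructor <;> linarith [h1.1, h1.2, h3.1, h3.2]
  · rw [hl]
    rw [abs_le] at h2 h4 ⊢
    constructor <;> linarith [h2.1, h2.2, h4.1, h4.2]

open Classical in
theorem Rul_prob {e : ℝ} (he : 0 < e) : ∃ C ρ : ℝ, 0 ≤ C ∧ 0 < ρ ∧ ρ < 1 ∧ ∀ K i : ℕ,
    ∑ v ∈ lw K i, (if Rul_B e v then (1 / 2 : ℝ) ^ v.sum else 0) ≤ C * ρ ^ i := by
  obtain ⟨ρ1, C1, h1, h1', hC1, hb1⟩ := cheN he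
  obtain ⟨ρ2, C2, h2, h2', hC2, hb2⟩ := cheR (e := e / 2) (by linarith)
  obtain ⟨N, hN⟩ := exists_nat_gt (2 / e)
  set ρ : ℝ := max ρ1 ρ2 with hρ
  have hρ0 : 0 < ρ := lt_max_of_lt_left h1
  have hρ1 : ρ < 1 := max_lt h1' h2'
  refine ⟨C1 + (C2 + (1 / ρ) ^ N), ρ, by positivity, hρ0, hρ1, ?_⟩
  intro K i
  have hsum : ∑ v ∈ lw K i, (1 / 2 : ℝ) ^ v.sum ≤ 1 := by
    have h := CheN_sum (y := 1 / 2) (by norm_num) (by norm_num) K i
    norm_num at h ⊢
    exact h
  have hA : ∑ v ∈ lw K i, (if e * i < |(v.sum : ℝ) - 2 * i| then (1 / 2 : ℝ) ^ v.sum else 0) ≤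
      C1 * ρ ^ i := by
    refine (hb1 K i).trans ?_
    exact mul_le_mul_of_nonneg_left (pow_le_pow_left₀ h1.le (le_max_left _ _) i) hC1
  have hB : ∑ v ∈ lw K i, (if e * i - 1 < |(Rw v : ℝ) - i / 2| then (1 / 2 : ℝ) ^ v.sum else 0) ≤
      (C2 + (1 / ρ) ^ N) * ρ ^ i := by
    have hpos : 0 ≤ C2 * ρ ^ i := by positivity
    have hpos2 : 0 ≤ (1 / ρ) ^ N * ρ ^ i := by positivity
    by_cases hi : (i : ℝ) < 2 / e
    · have hiN : i ≤ N := by
        have : (i : ℝ) < N := hi.trans hN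
        have : i < N := by exact_mod_cast this
        omega
      have h3 : (1 : ℝ) ≤ (1 / ρ) ^ N * ρ ^ i := by
        obtain ⟨d, rfl⟩ := Nat.exists_eq_add_of_le hiN
        rw [pow_add, mul_right_comm, ← mul_pow, one_div, inv_mul_cancel₀ hρ0.ne', one_pow, one_mul]
        apply one_le_pow₀
        rw [one_le_inv₀ hρ0]
        exact hρ1.le
      calc ∑ v ∈ lw K i, (if e * i - 1 < |(Rw v : ℝ) - i / 2| then (1 / 2 : ℝ) ^ v.sum else 0)
          ≤ ∑ v ∈ lw K i, (1 / 2 : ℝ) ^ v.sum := by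
            apply sum_le_sum
            intro v _
            split_ifs
            · exact le_rfl
            · positivity
        _ ≤ 1 := hsum
        _ ≤ _ := by
          rw [add_mul]
          linarith
    · have hi' : 2 ≤ e * i := by
        have := not_lt.1 hi
        rw [div_le_iff₀ he] at this
        linarith
      calc ∑ v ∈ lw K i, (if e * i - 1 < |(Rw v : ℝ) - i / 2| then (1 / 2 : ℝ) ^ v.sum else 0)
          ≤ ∑ v ∈ lw K i, (if e / 2 * i < |(Rw v : ℝ) - i / 2| then (1 / 2 : ℝ) ^ v.sum else 0) := by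
            apply sum_le_sum
            intro v _
            by_cases hv : e * i - 1 < |(Rw v : ℝ) - i / 2|
            · rw [if_pos hv]
              by_cases hv' : e / 2 * i < |(Rw v : ℝ) - i / 2|
              · rw [if_pos hv']
              · exfalso
                have h5 := not_lt.1 hv'
                have h6 : e / 2 * i ≤ e * i - 1 := by linarith
                -- equality case excluded by strictness
                linarith
            · rw [if_neg hv]
              split_ifs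
              · positivity
              · exact le_rfl
        _ ≤ C2 * ρ2 ^ i := hb2 K i
        _ ≤ C2 * ρ ^ i := mul_le_mul_of_nonneg_left (pow_le_pow_left₀ h2.le (le_max_right _ _) i) hC2
        _ ≤ _ := by
          rw [add_mul]
          linarith
  calc ∑ v ∈ lw K i, (if Rul_B e v then (1 / 2 : ℝ) ^ v.sum else 0)
      ≤ ∑ v ∈ lw K i, ((if e * i < |(v.sum : ℝ) - 2 * i| then (1 / 2 : ℝ) ^ v.sum else 0) +
        (if e * i - 1 < |(Rw v : ℝ) - i / 2| then (1 / 2 : ℝ) ^ v.sum else 0)) := by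
        apply sum_le_sum
        intro v hv
        have hl : v.length = i := (mem_lw.1 hv).1
        unfold Rul_B
        rw [hl]
        have hp : (0 : ℝ) ≤ (1 / 2 : ℝ) ^ v.sum := by positivity
        by_cases c1 : e * i < |(v.sum : ℝ) - 2 * i|
        · rw [if_pos (Or.inl c1), if_pos c1]
          split_ifs <;> linarith
        · by_cases c2 : e * i - 1 < |(Rw v : ℝ) - i / 2|
          · rw [if_pos (Or.inr c2), if_neg c1, if_pos c2]
            linarith
          · rw [if_neg (by rw [not_or]; exact ⟨c1, c2⟩), if_neg c1, if_neg c2]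
            linarith
    _ ≤ C1 * ρ ^ i + (C2 + (1 / ρ) ^ N) * ρ ^ i := by
        rw [sum_add_distrib]
        exact add_le_add hA hB
    _ = _ := by ring

/-- **The rule.** -/
theorem exists_rule {e : ℝ} (he : 0 < e) (he1 : e ≤ 1 / 100) :
    ∃ C ρ : ℝ, 0 ≤ C ∧ 0 < ρ ∧ ρ < 1 ∧ ∃ R : Rule C ρ, ∀ w, R.Q w ↔ Typ e w := by
  obtain ⟨C, ρ, hC, hρ, hρ1, hb⟩ := Rul_prob he
  refine ⟨C, ρ, hC, hρ, hρ1, ⟨Typ e, Rul_B e, ?_, ?_, ?_, ?_, ?_⟩, fun w => Iff.rfl⟩
  · constructor <;> simp [Rw]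
  · intro w hw
    have h1 := (abs_le.1 hw.1).1
    have h2 : e * (w.length : ℝ) ≤ 1 / 100 * w.length :=
      mul_le_mul_of_nonneg_right he1 (Nat.cast_nonneg _)
    have h3 : (0 : ℝ) ≤ w.length := Nat.cast_nonneg _
    have : (39 : ℝ) * w.length ≤ 20 * w.sum := by linarith
    exact_mod_cast this
  · intro w hw
    have h1 := (abs_le.1 hw.1).2
    have h2 : e * (w.length : ℝ) ≤ 1 / 100 * w.length :=
      mul_le_mul_of_nonneg_right he1 (Nat.cast_nonneg _)
    have h3 : (0 : ℝ) ≤ w.length := Nat.cast_nonneg _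
    have : (w.sum : ℝ) ≤ 3 * w.length := by linarith
    exact_mod_cast this
  · intro u v hu h
    exact Rul_split hu h
  · intro K i
    exact hb K i

end Pool.Agent.helper82.PD
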