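import Pool.Agent.helper14.EX1.Cyc
import Pool.Agent.helper14.EX1.Wrd

/-!
# PD-PrimG: the children of any node meet every residue class modulo `3 ^ n`

With `c = 1, 2` for `k` odd, even: `tk (k + 6) = 64 tk k + 21 c + 126`, so `k ↦ k + 6` is `y ↦ 64 y + 7 c + 42` on the ends, one cycle
modulo `3 ^ n` (`Cyc_aff_orbit_inj`).
-/

namespace Pool.Agent.helper82.PD

open Finset Pool.Agent.helper14.EX1

theorem PrimG_surj (n : ℕ) {β : ℤ} (hβ : ¬ (3 : ℤ) ∣ β) (a z : ZMod (3 ^ n)) :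
    ∃ i, (Cyc_aff n 64 β)^[i] a = z := by
  have hinj : Set.InjOn (fun i => (Cyc_aff n 64 β)^[i] 0) (range (3 ^ n) : Set ℕ) := by
    intro a ha b hb h
    rw [Finset.mem_coe, mem_range] at ha hb
    rcases le_total a b with h' | h'
    · exact Cyc_aff_orbit_inj n 64 β (by norm_num) hβ h' hb h
    · exact (Cyc_aff_orbit_inj n 64 β (by norm_num) hβ h' ha h.symm).symm
  have himg : (range (3 ^ n)).image (fun i => (Cyc_aff n 64 β)^[i] 0) = Finset.univ := by
    apply Finset.eq_univ_of_card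
    rw [Finset.card_image_of_injOn hinj, card_range, ZMod.card]
  obtain ⟨b, -, hb⟩ := mem_image.1 (by rw [himg]; exact mem_univ a :
    a ∈ (range (3 ^ n)).image (fun i => (Cyc_aff n 64 β)^[i] 0))
  have hinj1 : Function.Injective (Cyc_aff n 64 β) := by
    have hs : Function.Surjective (Cyc_aff n 64 β) := by
      intro z
      have h64 : IsUnit ((64 : ℤ) : ZMod (3 ^ n)) := by
        rw [show ((64 : ℤ) : ZMod (3 ^ n)) = ((64 : ℕ) : ZMod (3 ^ n)) by norm_num]
        rw [ZMod.isUnit_iff_coprime]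
        exact Nat.Coprime.pow_right n (by norm_num)
      obtain ⟨u, hu⟩ := h64
      refine ⟨(↑u⁻¹ : ZMod (3 ^ n)) * (z - ((β : ℤ) : ZMod (3 ^ n))), ?_⟩
      unfold Cyc_aff
      rw [← hu, ← mul_assoc, Units.mul_inv, one_mul]
      ring
    exact Finite.injective_iff_surjective.2 hs
  have hinjO : Set.InjOn (fun i => (Cyc_aff n 64 β)^[i] a) (range (3 ^ n) : Set ℕ) := by
    intro i hi j hj h
    have h' : (Cyc_aff n 64 β)^[i] ((Cyc_aff n 64 β)^[b] 0) =
        (Cyc_aff n 64 β)^[j] ((Cyc_aff n 64 β)^[b] 0) := by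
      have hb' : (Cyc_aff n 64 β)^[b] 0 = a := hb
      rw [hb']
      exact h
    rw [← Function.iterate_add_apply, ← Function.iterate_add_apply, add_comm i, add_comm j,
      Function.iterate_add_apply, Function.iterate_add_apply] at h'
    exact hinj hi hj (hinj1.iterate b h')
  have himgO : (range (3 ^ n)).image (fun i => (Cyc_aff n 64 β)^[i] a) = Finset.univ := by
    apply Finset.eq_univ_of_card
    rw [Finset.card_image_of_injOn hinjO, card_range, ZMod.card]
  obtain ⟨i, -, hi⟩ := mem_image.1 (by rw [himgO]; exact mem_univ z :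
    z ∈ (range (3 ^ n)).image (fun i => (Cyc_aff n 64 β)^[i] a))
  exact ⟨i, hi⟩

/-- Six more halvings. -/
theorem PrimG_six {k : ℕ} (hk : 1 ≤ k) {x : ℤ} (h : Al k x) :
    Al (k + 6) x ∧ Tk (k + 6) x = 64 * Tk k x + (42 + 7 * (if k % 2 = 1 then 1 else 2)) := by
  have h1 := three_tk hk
  have h2 := three_tk (k := k + 6) (by omega)
  have hp : (k + 6) % 2 = k % 2 := by omega
  rw [hp] at h2
  set c : ℤ := if k % 2 = 1 then 1 else 2 with hc
  have e1 : (2 : ℤ) ^ (k + 6 + 1) = 64 * 2 ^ (k + 1) := by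
    rw [show k + 6 + 1 = (k + 1) + 6 by ring, pow_add]
    ring
  have e2 : (2 : ℤ) ^ (k + 6) = 64 * 2 ^ k := by
    rw [pow_add]
    ring
  have e3 : tk (k + 6) = 64 * tk k + 21 * c + 126 := by
    rw [e1] at h2
    linarith
  obtain ⟨y, hy⟩ := h
  have h3 : (2 : ℤ) ^ (k + 6) * x + tk (k + 6) = 3 * (64 * y + 7 * c + 42) := by
    rw [e2, e3]
    linarith
  have h4 : Al (k + 6) x := ⟨_, h3⟩
  refine ⟨h4, ?_⟩
  have h5 := Tk_eq h4
  have h6 := Tk_eq (⟨y, hy⟩ : Al k x)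
  rw [h3] at h5
  rw [hy] at h6
  linarith

/-- From every node every class modulo `3 ^ n` is reached by one letter, as large as we like. -/
theorem primG (z : ℤ) (n : ℕ) (r : ℤ) (N : ℕ) :
    ∃ k : ℕ, 1 ≤ k ∧ N ≤ k ∧ Al k z ∧ (3 : ℤ) ^ n ∣ Tk k z - r := by
  -- an allowed letter
  obtain ⟨k0, hk0, hal⟩ : ∃ k : ℕ, 1 ≤ k ∧ Al k z := by
    have h3 : z % 3 = 0 ∨ z % 3 = 1 ∨ z % 3 = 2 := by omega
    rcases h3 with h | h | h
    · exact ⟨3, by norm_num, (al_zero h).2⟩
    · exact ⟨5, by norm_num, (al_one h).2⟩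
    · exact ⟨7, by norm_num, (al_two h).2.2⟩
  set c : ℤ := if k0 % 2 = 1 then 1 else 2 with hc
  set β : ℤ := 42 + 7 * c with hβ
  have hβ3 : ¬ (3 : ℤ) ∣ β := by
    have : c = 1 ∨ c = 2 := by
      rw [hc]
      split_ifs <;> simp
    rcases this with h | h <;> rw [hβ, h] <;> norm_num
  have hall : ∀ i : ℕ, Al (k0 + 6 * i) z := by
    intro i
    induction i with
    | zero => exact hal
    | succ i ih => exact (PrimG_six (by omega) ih).1
  have hstep : ∀ i : ℕ, Tk (k0 + 6 * (i + 1)) z = 64 * Tk (k0 + 6 * i) z + β := by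
    intro i
    have h1 := (PrimG_six (k := k0 + 6 * i) (by omega) (hall i)).2
    have h2 : (k0 + 6 * i) % 2 = k0 % 2 := by omega
    rw [h2, ← hc] at h1
    exact h1
  have horb : ∀ i : ℕ, (Cyc_aff n 64 β)^[i] ((Tk (k0 + 6 * N) z : ℤ) : ZMod (3 ^ n)) =
      ((Tk (k0 + 6 * (N + i)) z : ℤ) : ZMod (3 ^ n)) := by
    intro i
    induction i with
    | zero => rfl
    | succ i ih =>
      rw [Function.iterate_succ_apply', ih, ← Nat.add_assoc N i 1, hstep, Cyc_aff]
      push_cast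
      ring
  obtain ⟨i, hi⟩ := PrimG_surj n hβ3 ((Tk (k0 + 6 * N) z : ℤ) : ZMod (3 ^ n)) ((r : ℤ) : ZMod (3 ^ n))
  refine ⟨k0 + 6 * (N + i), by omega, by omega, hall _, ?_⟩
  rw [horb i] at hi
  have h6 := (ZMod.intCast_eq_intCast_iff_dvd_sub _ _ _).1 hi.symm
  exact_mod_cast h6

end Pool.Agent.helper82.PD
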