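import Pool.Agent.helper82.PD.PrimG
import Pool.Agent.helper14.EX1.FiveG

/-!
# PD-RootG: a root in a given class which is not periodic

`z0` is a node which leads to `m`, `a` the number `3 z0 + 2`.  If `a` is periodic its orbit is bounded by some `M`; take a letter
`k > M` from `z0` (`primG`): the end `N0 ≥ 2 ^ k > M` leads to `a`, so if it were periodic it would be in the orbit of `a`.
-/

namespace Pool.Agent.helper82.PD

open Finset Pool.Agent.helper14.EX1 Pool.Agent.helper41.Coll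

theorem RootG_f_even (m : ℕ) : f (2 * m) = m := by
  unfold f
  rw [if_neg (by omega), if_neg (by omega)]
  omega

theorem RootG_five : f^[4] 5 = 1 ∧ f^[3] 5 = 2 := by
  constructor <;> rfl

theorem RootG_start {m : ℕ} (hm : 1 ≤ m) (h3 : ¬ 3 ∣ m) : ∃ x0 : ℤ, 1 ≤ x0 ∧
    ∃ i, f^[i] (3 * x0 + 2).toNat = m := by
  by_cases hm2 : m ≤ 2
  · have h5 : (3 * (1 : ℤ) + 2).toNat = 5 := rfl
    refine ⟨1, le_rfl, ?_⟩
    have hm' : m = 1 ∨ m = 2 := by omega
    rcases hm' with rfl | rfl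
    · exact ⟨4, by rw [h5]; exact RootG_five.1⟩
    · exact ⟨3, by rw [h5]; exact RootG_five.2⟩
  · have hmod : m % 3 = 1 ∨ m % 3 = 2 := by omega
    rcases hmod with h | h
    · refine ⟨((2 * m - 2) / 3 : ℕ), ?_, ?_⟩
      · have : 1 ≤ (2 * m - 2) / 3 := by omega
        exact_mod_cast this
      · refine ⟨1, ?_⟩
        have h5 : (3 * (((2 * m - 2) / 3 : ℕ) : ℤ) + 2).toNat = 2 * m := by omega
        rw [h5]
        exact RootG_f_even m
    · have h5 : (3 * (((m - 2) / 3 : ℕ) : ℤ) + 2).toNat = m := by omega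
      refine ⟨((m - 2) / 3 : ℕ), ?_, ⟨0, ?_⟩⟩
      · have : 1 ≤ (m - 2) / 3 := by omega
        exact_mod_cast this
      · rw [h5]; rfl

/-- The orbit of a periodic number is bounded. -/
theorem RootG_bdd (a : ℕ) : ∃ M : ℕ, (∃ p, 1 ≤ p ∧ f^[p] a = a) → ∀ i, f^[i] a ≤ M := by
  by_cases h : ∃ p, 1 ≤ p ∧ f^[p] a = a
  · obtain ⟨p, hp, hpa⟩ := h
    refine ⟨(range p).sup (fun i => f^[i] a), fun _ i => ?_⟩
    have h1 : f^[i] a = f^[i % p] a := by
      conv_lhs => rw [← Nat.mod_add_div i p]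
      rw [Function.iterate_add_apply, Function.iterate_mul]
      rw [Function.iterate_fixed hpa]
    rw [h1]
    exact Finset.le_sup (f := fun i => f^[i] a) (mem_range.2 (Nat.mod_lt _ hp))
  · exact ⟨0, fun h' => absurd h' h⟩

theorem rootG {m : ℕ} (hm : 1 ≤ m) (h3 : ¬ 3 ∣ m) (n0 : ℕ) (r : ℤ) : ∃ x0 : ℤ, 1 ≤ x0 ∧
    (3 : ℤ) ^ n0 ∣ x0 - r ∧ (∃ i, f^[i] (3 * x0 + 2).toNat = m) ∧
    ∀ p, 1 ≤ p → f^[p] (3 * x0 + 2).toNat ≠ (3 * x0 + 2).toNat := by
  obtain ⟨z0, hz0, i, hi⟩ := RootG_start hm h3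
  obtain ⟨M, hM⟩ := RootG_bdd (3 * z0 + 2).toNat
  obtain ⟨k, hk1, hkM, hal, hcl⟩ := primG z0 n0 r (M + 1)
  have hx0 : 1 ≤ Tk k z0 := by
    have := FiveG_pos hz0 (v := [k]) (by simpa using hk1) ⟨hal, trivial⟩
    exact this
  have hstep := FiveG_step hk1 hz0 hal hx0
  refine ⟨Tk k z0, hx0, hcl, ⟨i + k, ?_⟩, ?_⟩
  · rw [Function.iterate_add_apply, hstep, hi]
  · intro p hp hper
    set N0 : ℕ := (3 * Tk k z0 + 2).toNat with hN0
    set a : ℕ := (3 * z0 + 2).toNat with ha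
    have e1 : f^[p * k] N0 = N0 := by
      rw [Function.iterate_mul]
      exact Function.iterate_fixed hper k
    have hpk : k ≤ p * k := Nat.le_mul_of_pos_left k hp
    obtain ⟨d, hd⟩ := Nat.exists_eq_add_of_le hpk
    have e2 : f^[d] a = N0 := by
      rw [hd, add_comm, Function.iterate_add_apply, hstep] at e1
      exact e1
    have e3 : f^[k + d] a = a := by
      rw [Function.iterate_add_apply, e2, hstep]
    have e4 := hM ⟨k + d, by omega, e3⟩ d
    rw [e2] at e4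
    have h5 := Tk_node hk1 hal
    have h6 : ((k : ℕ) : ℤ) < 2 ^ k := by exact_mod_cast Nat.lt_two_pow_self
    have h7 : (2 : ℤ) ^ k * 5 ≤ 2 ^ k * (3 * z0 + 2) := by
      apply mul_le_mul_of_nonneg_left _ (by positivity)
      linarith
    have h8 : (3 : ℤ) * (3 * Tk k z0 + 2) ≥ 2 ^ k * 5 - 2 := by
      rw [h5]
      split_ifs <;> linarith
    have h9 : ((N0 : ℕ) : ℤ) = 3 * Tk k z0 + 2 := by
      rw [hN0]
      exact Int.toNat_of_nonneg (by linarith)
    have h10 : ((k : ℕ) : ℤ) ≤ N0 := by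
      rw [h9]
      have : (1 : ℤ) ≤ k := by exact_mod_cast hk1
      linarith
    have h11 : k ≤ N0 := by exact_mod_cast h10
    omega

/-- Injectivity above a root which is not periodic. -/
theorem injP {x0 : ℤ} (hx : 1 ≤ x0) (hp : ∀ p, 1 ≤ p → f^[p] (3 * x0 + 2).toNat ≠ (3 * x0 + 2).toNat)
    {v w : List ℕ} (hv : ∀ k ∈ v, 1 ≤ k) (hw : ∀ k ∈ w, 1 ≤ k) (av : Ala x0 v) (aw : Ala x0 w)
    (e : nd x0 v = nd x0 w) : v = w := by
  have key : ∀ {v w : List ℕ}, (∀ k ∈ v, 1 ≤ k) → (∀ k ∈ w, 1 ≤ k) → Ala x0 v → Ala x0 w →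
      nd x0 v = nd x0 w → ¬ v.sum < w.sum := by
    intro v w hv hw av aw e hlt
    have e1 := hitG hx hv av
    have e2 := hitG hx hw aw
    rw [← e] at e2
    obtain ⟨d, hd⟩ : ∃ d, w.sum = (d + 1) + v.sum := ⟨w.sum - v.sum - 1, by omega⟩
    rw [hd, Function.iterate_add_apply, e1] at e2
    exact hp (d + 1) (by omega) e2
  have h1 := key hv hw av aw e
  have h2 := key hw hv aw av e.symm
  exact FiveG_inj hv hw av aw e (by omega)

end Pool.Agent.helper82.PD
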