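import Pool.Agent.helper82.PD.Api
import Pool.Agent.helper82.PD.RootG
import Pool.Agent.helper14.EX1.CirG

/-!
# PD-FinG: the theorem for a general `m`

`e = ε / 400`, `visits`, the root `x0` of `rootG`, `a0 = 3 x0 + 2`, `X = x / (2 a0)`.  The nodes of the words `v ∈ S` are distinct (`injP`),
`≤ 2 X a0 = x`; at most `c X / 2` of them are below `c X / 2`; for the others `circG`, `hitG` and the estimates `FinG_est`.
-/

namespace Pool.Agent.helper82.PD

open Finset Pool.Agent.helper14.EX1 Pool.Agent.helper41.Coll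

theorem FinG_log : (1 : ℝ) / 4 ≤ Real.log (4 / 3) ∧ Real.log (16 / 9) = 2 * Real.log (4 / 3) := by
  constructor
  · have h := Real.one_sub_inv_le_log_of_pos (by norm_num : (0 : ℝ) < 4 / 3)
    norm_num at h
    norm_num
    linarith
  · have h : (16 : ℝ) / 9 = (4 / 3) ^ 2 := by norm_num
    rw [h, Real.log_pow]
    norm_num

theorem FinG_j0 {a : ℕ} (h : ∃ i, f^[i] a = 1) : ∃ j0, f^[j0] a = 1 ∧ ∀ i < j0, f^[i] a ≠ 1 :=
  ⟨Nat.find h, Nat.find_spec h, fun _ hi => Nat.find_min h hi⟩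

theorem FinG_one (i : ℕ) : f^[i] 1 = 1 := by
  induction i with
  | zero => rfl
  | succ i ih => rw [Function.iterate_succ_apply', ih]; rfl

/-- the first hitting time of `1` -/
theorem FinG_hit {N a s j0 : ℕ} (h : f^[s] N = a) (ha : a ≠ 1) (h1 : f^[j0] a = 1)
    (h2 : ∀ i < j0, f^[i] a ≠ 1) : f^[s + j0] N = 1 ∧ ∀ i < s + j0, f^[i] N ≠ 1 := by
  constructor
  · rw [add_comm, Function.iterate_add_apply, h, h1]
  · intro i hi h3
    by_cases his : i ≤ s
    · apply ha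
      obtain ⟨r, rfl⟩ := Nat.exists_eq_add_of_le his
      rw [← h, add_comm, Function.iterate_add_apply, h3, FinG_one]
    · obtain ⟨r, rfl⟩ := Nat.exists_eq_add_of_le (not_le.1 his).le
      rw [add_comm, Function.iterate_add_apply, h] at h3
      exact h2 r (by omega) h3

/-- the estimates for one node: `l` the length, `y = log n`, `A = log a0`, `Λ = log (4/3)` -/
theorem FinG_est {ε l y A Λ c r R0 C j s0 s j0 : ℝ} (hε : 0 < ε) (hε1 : ε ≤ 1) (hl : 0 ≤ l)
    (hA : 0 ≤ A) (hΛ : 1 / 4 ≤ Λ) (h1 : |y - A - l * Λ| ≤ ε / 100 * l) (hR0 : 0 ≤ R0) (hC : 0 ≤ C)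
    (h2 : |r - l / 2| ≤ 2 * (ε / 100) * l) (hc1 : r ≤ c) (hc2 : c ≤ r + R0 + C)
    (h3 : |s - 2 * l| ≤ ε / 100 * l) (hs0 : 0 ≤ s0) (hj0 : 0 ≤ j0) (hj : j = s0 + s + j0)
    (hy : 2 * (R0 + C + s0 + j0 + 8 * A) ≤ ε * y) :
    |c - y / (2 * Λ)| ≤ ε * y ∧ |j - 2 * y / Λ| ≤ ε * y := by
  have hΛ0 : 0 < Λ := by linarith
  obtain ⟨a1, a2⟩ := abs_le.1 h1
  obtain ⟨b1, b2⟩ := abs_le.1 h2
  obtain ⟨d1, d2⟩ := abs_le.1 h3
  have hel : 0 ≤ ε / 100 * l := by positivity
  have hl5 : l ≤ 5 * y := by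
    have e1 : l * (1 / 4) ≤ l * Λ := mul_le_mul_of_nonneg_left hΛ hl
    have e2 : ε / 100 * l ≤ 1 / 100 * l := mul_le_mul_of_nonneg_right (by linarith) hl
    linarith
  have hel5 : ε / 100 * l ≤ ε * y / 20 := by
    have e1 : ε / 100 * l ≤ ε / 100 * (5 * y) := mul_le_mul_of_nonneg_left hl5 (by positivity)
    linarith
  set q : ℝ := y / Λ with hq
  have hqΛ : q * Λ = y := by
    rw [hq]
    field_simp
  have hq1 : q - l ≤ 4 * (ε / 100 * l + A) := by
    by_contra hcon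
    have hcon' := not_le.1 hcon
    have e1 : 4 * (ε / 100 * l + A) * Λ < (q - l) * Λ := mul_lt_mul_of_pos_right hcon' hΛ0
    have e2 : (ε / 100 * l + A) ≤ 4 * (ε / 100 * l + A) * Λ := by
      have : 0 ≤ ε / 100 * l + A := by linarith
      nlinarith
    have e3 : (q - l) * Λ = y - l * Λ := by rw [sub_mul, hqΛ]
    linarith
  have hq2 : l - q ≤ 4 * (ε / 100 * l + A) := by
    by_contra hcon
    have hcon' := not_le.1 hcon
    have e1 : 4 * (ε / 100 * l + A) * Λ < (l - q) * Λ := mul_lt_mul_of_pos_right hcon' hΛ0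
    have e2 : (ε / 100 * l + A) ≤ 4 * (ε / 100 * l + A) * Λ := by
      have : 0 ≤ ε / 100 * l + A := by linarith
      nlinarith
    have e3 : (l - q) * Λ = l * Λ - y := by rw [sub_mul, hqΛ]
    linarith
  have hy2 : y / (2 * Λ) = q / 2 := by
    rw [hq]
    field_simp
  have hy3 : 2 * y / Λ = 2 * q := by
    rw [hq]
    ring
  rw [hy2, hy3]
  constructor
  · rw [abs_le]
    constructor <;> linarith
  · rw [abs_le]
    constructor <;> linarith

/-- the logarithm of a node -/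
theorem FinG_word {e C X a0 θ N : ℝ} {l s : ℕ} (he : 0 ≤ e) (hC : 0 ≤ C) (hX : 0 < X) (ha0 : 1 ≤ a0)
    (hθ : 0 < θ) (hN0 : θ * X ≤ N) (hN1 : N * 3 ^ l ≤ 2 ^ s * a0)
    (h1 : X * 3 ^ l ≤ 2 ^ s) (h2 : (2 : ℝ) ^ s < 2 * X * 3 ^ l)
    (h3 : |(s : ℝ) - 2 * l| ≤ e * l + C) :
    |Real.log N - Real.log a0 - l * Real.log (4 / 3)| ≤
      e * l + (C + |Real.log θ| + 1 + Real.log a0) ∧ Real.log X ≤ (1 + e) * l + C := by
  have h3l : (0 : ℝ) < 3 ^ l := by positivity
  have h2s : (0 : ℝ) < 2 ^ s := by positivity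
  have hNp : 0 < N := lt_of_lt_of_le (mul_pos hθ hX) hN0
  have e1 : Real.log X + l * Real.log 3 ≤ s * Real.log 2 := by
    have := Real.log_le_log (by positivity) h1
    rw [Real.log_mul hX.ne' h3l.ne', Real.log_pow, Real.log_pow] at this
    exact this
  have e2 : s * Real.log 2 ≤ Real.log 2 + Real.log X + l * Real.log 3 := by
    have := Real.log_le_log h2s h2.le
    rw [Real.log_mul (by positivity) h3l.ne', Real.log_mul (by norm_num) hX.ne', Real.log_pow,
      Real.log_pow] at this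
    exact this
  have e3 : Real.log θ + Real.log X ≤ Real.log N := by
    have := Real.log_le_log (mul_pos hθ hX) hN0
    rw [Real.log_mul hθ.ne' hX.ne'] at this
    exact this
  have e4 : Real.log N + l * Real.log 3 ≤ s * Real.log 2 + Real.log a0 := by
    have := Real.log_le_log (mul_pos hNp h3l) hN1
    rw [Real.log_mul hNp.ne' h3l.ne', Real.log_mul h2s.ne' (by linarith), Real.log_pow,
      Real.log_pow] at this
    exact this
  have e5 : Real.log (4 / 3) = 2 * Real.log 2 - Real.log 3 := by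
    rw [Real.log_div (by norm_num) (by norm_num), show (4 : ℝ) = 2 ^ 2 by norm_num, Real.log_pow]
    norm_num
  have hl2 : 0 < Real.log 2 := Real.log_pos (by norm_num)
  have hl2' : Real.log 2 ≤ 1 := by
    have := Real.log_two_lt_d9
    linarith
  have hl3 : 1 ≤ Real.log 3 := by
    rw [Real.le_log_iff_exp_le (by norm_num)]
    have := Real.exp_one_lt_d9
    linarith
  have hA : 0 ≤ Real.log a0 := Real.log_nonneg ha0
  have hl0 : (0 : ℝ) ≤ l := Nat.cast_nonneg l
  have hel : 0 ≤ e * l + C := by positivity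
  obtain ⟨b1, b2⟩ := abs_le.1 h3
  have f1 : ((s : ℝ) - 2 * l) * Real.log 2 ≤ e * l + C := by
    calc ((s : ℝ) - 2 * l) * Real.log 2 ≤ (e * l + C) * Real.log 2 :=
          mul_le_mul_of_nonneg_right b2 hl2.le
      _ ≤ (e * l + C) * 1 := mul_le_mul_of_nonneg_left hl2' hel
      _ = _ := mul_one _
  have f2 : -(e * l + C) ≤ ((s : ℝ) - 2 * l) * Real.log 2 := by
    have : -(e * l + C) * Real.log 2 ≤ ((s : ℝ) - 2 * l) * Real.log 2 :=
      mul_le_mul_of_nonneg_right b1 hl2.le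
    have g : (e * l + C) * Real.log 2 ≤ (e * l + C) * 1 := mul_le_mul_of_nonneg_left hl2' hel
    linarith
  have hθa := neg_abs_le (Real.log θ)
  constructor
  · rw [abs_le, e5]
    constructor
    · nlinarith
    · nlinarith
  · have g : (l : ℝ) * Real.log 2 ≤ l * 1 := mul_le_mul_of_nonneg_left hl2' hl0
    have g2 : (l : ℝ) * 1 ≤ l * Real.log 3 := mul_le_mul_of_nonneg_left hl3 hl0
    nlinarith

open Classical in
theorem FinG_main {m : ℕ} (hm : 1 ≤ m) (hm3 : ¬ 3 ∣ m) {ε : ℝ} (hε : 0 < ε) (hε1 : ε < 1) :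
    ∃ c x0 : ℝ, 0 < c ∧ ∀ x : ℝ, x0 ≤ x → 1 ≤ x ∧
    c * x ≤ (((Icc 1 ⌊x⌋₊).filter (fun n : ℕ => (∃ i, f^[i] n = m) ∧ ((∃ i, f^[i] m = 1) →
      (∃ c : ℕ, HasC n c ∧ |(c : ℝ) - Real.log n / Real.log (16 / 9)| ≤ ε * Real.log n) ∧
        ∃ j : ℕ, f^[j] n = 1 ∧ (∀ i < j, f^[i] n ≠ 1) ∧
          |(j : ℝ) - 2 * Real.log n / Real.log (4 / 3)| ≤ ε * Real.log n))).card : ℝ) := by
  obtain ⟨hΛ, hΛ2⟩ := FinG_log
  obtain ⟨n0, r, C0, c, hc, H⟩ := visits (e := ε / 400) (by linarith) (by linarith)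
  obtain ⟨z, hz1, hr, ⟨im, him⟩, hper⟩ := rootG hm hm3 n0 r
  have hx0 : 0 ≤ z := by linarith
  obtain ⟨X0, H⟩ := H z hx0 hr
  obtain ⟨c0, j0, hcj⟩ : ∃ c0 j0 : ℕ, (∃ i, f^[i] m = 1) → HasC (3 * z + 2).toNat c0 ∧
      f^[j0] (3 * z + 2).toNat = 1 ∧ ∀ i < j0, f^[i] (3 * z + 2).toNat ≠ 1 := by
    by_cases h1 : ∃ i, f^[i] m = 1
    · obtain ⟨i, hi⟩ := h1
      have h2 : f^[i + im] (3 * z + 2).toNat = 1 := by
        rw [Function.iterate_add_apply, him, hi]
      obtain ⟨c0, hc0⟩ := exists_hasC h2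
      obtain ⟨j0, hj0, hj0'⟩ := FinG_j0 ⟨_, h2⟩
      exact ⟨c0, j0, fun _ => ⟨hc0, hj0, hj0'⟩⟩
    · exact ⟨0, 0, fun h => absurd h h1⟩
  have hz5 : (3 * z + 2).toNat ≠ 1 := by omega
  set a0 : ℝ := 3 * (z : ℝ) + 2 with ha0
  have hx0' : (0 : ℝ) ≤ (z : ℝ) := by exact_mod_cast hx0
  have ha1 : 1 ≤ a0 := by rw [ha0]; linarith
  have hA : 0 ≤ Real.log a0 := Real.log_nonneg ha1
  set C : ℝ := max C0 0 with hCdef
  have hC : 0 ≤ C := le_max_right _ _
  have hC0 : C0 ≤ C := le_max_left _ _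
  set θ : ℝ := c / 2 with hθ
  have hθ0 : 0 < θ := by rw [hθ]; linarith
  set C' : ℝ := C + |Real.log θ| + 1 + Real.log a0 with hC'
  have hC'0 : 0 ≤ C' := by
    have := abs_nonneg (Real.log θ)
    rw [hC']
    linarith
  -- thresholds for `log X`
  set B : ℝ := 2 * (800 * C' / ε) + C + 2 * ((c0 : ℝ) + 1 + j0 + 8 * Real.log a0) / ε + |Real.log θ| with hB
  refine ⟨c / (4 * a0), max 1 (2 * a0 * max X0 (Real.exp B)), by positivity, fun x hx => ?_⟩
  have hx1 : 1 ≤ x := (le_max_left _ _).trans hx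
  refine ⟨hx1, ?_⟩
  have hx2 : 2 * a0 * max X0 (Real.exp B) ≤ x := (le_max_right _ _).trans hx
  set X : ℝ := x / (2 * a0) with hX
  have ha2 : 0 < 2 * a0 := by linarith
  have hX1 : max X0 (Real.exp B) ≤ X := by
    rw [hX, le_div_iff₀ ha2]
    linarith
  have hXx : 2 * X * a0 = x := by
    rw [hX]
    field_simp
  have hXe : Real.exp B ≤ X := (le_max_right _ _).trans hX1
  have hXp : 0 < X := lt_of_lt_of_le (Real.exp_pos B) hXe
  have hlogX : B ≤ Real.log X := by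
    rw [Real.le_log_iff_exp_le hXp]
    exact hXe
  obtain ⟨S, hS, hcard⟩ := H X ((le_max_left _ _).trans hX1)
  -- the nodes
  have hnn : ∀ v ∈ S, 0 ≤ nd z v := by
    intro v hv
    obtain ⟨h1, h2, -⟩ := hS v hv
    exact nd_nn hx0 h1 h2
  have hcast : ∀ v ∈ S, (((3 * nd z v + 2).toNat : ℕ) : ℝ) = 3 * nd z v + 2 := by
    intro v hv
    have h1 : (0 : ℤ) ≤ 3 * nd z v + 2 := by
      have := hnn v hv
      linarith
    have h2 : (((3 * nd z v + 2).toNat : ℕ) : ℤ) = 3 * nd z v + 2 :=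
      Int.toNat_of_nonneg h1
    exact_mod_cast h2
  have hinj : ∀ v ∈ S, ∀ v' ∈ S, (3 * nd z v + 2).toNat = (3 * nd z v' + 2).toNat → v = v' := by
    intro v hv1 v' hv2 h0
    have h1 := hnn v hv1
    have h2 := hnn v' hv2
    have h3 : nd z v = nd z v' := by omega
    obtain ⟨a1, a2, -⟩ := hS v hv1
    obtain ⟨b1, b2, -⟩ := hS v' hv2
    exact injP hz1 hper a1 b1 a2 b2 h3
  -- the small nodes
  have hsmall : ((S.filter (fun v => ((3 * nd z v + 2).toNat : ℝ) < θ * X)).card : ℝ) ≤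
      θ * X := by
    have h1 : (S.filter (fun v => ((3 * nd z v + 2).toNat : ℝ) < θ * X)).card ≤
        (Icc 1 ⌊θ * X⌋₊).card := by
      apply Finset.card_le_card_of_injOn (fun v => (3 * nd z v + 2).toNat)
      · intro v hv
        obtain ⟨hv1, hv2⟩ := mem_filter.1 (Finset.mem_coe.1 hv)
        have := hnn v hv1
        rw [Finset.coe_Icc, Set.mem_Icc]
        constructor
        · show 1 ≤ (3 * nd z v + 2).toNat
          omega
        · exact Nat.le_floor hv2.le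
      · intro v hv v' hv' h
        exact hinj v (mem_filter.1 (Finset.mem_coe.1 hv)).1 v' (mem_filter.1 (Finset.mem_coe.1 hv')).1 h
    have h2 : ((Icc 1 ⌊θ * X⌋₊).card : ℝ) ≤ θ * X := by
      rw [Nat.card_Icc, Nat.add_sub_cancel]
      exact Nat.floor_le (by positivity)
    exact (Nat.cast_le.2 h1).trans h2
  have hbig : θ * X ≤
      ((S.filter (fun v => ¬ ((3 * nd z v + 2).toNat : ℝ) < θ * X)).card : ℝ) := by
    have h1 := Finset.card_filter_add_card_filter_not (s := S)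
      (fun v => ((3 * nd z v + 2).toNat : ℝ) < θ * X)
    have h2 : ((S.filter (fun v => ((3 * nd z v + 2).toNat : ℝ) < θ * X)).card : ℝ) +
        ((S.filter (fun v => ¬ ((3 * nd z v + 2).toNat : ℝ) < θ * X)).card : ℝ) = S.card := by
      exact_mod_cast h1
    have h3 : c * X = θ * X + θ * X := by rw [hθ]; ring
    linarith
  have hcx : c / (4 * a0) * x = θ * X := by
    rw [hθ, ← hXx]
    field_simp
    ring
  rw [hcx]
  refine hbig.trans ?_
  rw [Nat.cast_le]
  apply Finset.card_le_card_of_injOn (fun v => (3 * nd z v + 2).toNat)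
  · intro v hv
    obtain ⟨hv1, hv2⟩ := mem_filter.1 (Finset.mem_coe.1 hv)
    obtain ⟨h1, h2, h3, h4, h5, h6⟩ := hS v hv1
    have hc00 := hcast v hv1
    have hle := nd_le h1 h2
    have hhit := hitG hz1 h1 h2
    have hcirc : (∃ i, f^[i] m = 1) → ∃ c : ℕ, HasC (3 * nd z v + 2).toNat c ∧ Rw v + c0 ≤ c ∧
        c ≤ Rw v + c0 + 1 := fun h => circG hz1 (hcj h).1 h1 h2
    set N : ℕ := (3 * nd z v + 2).toNat with hN
    have hNX : θ * X ≤ N := not_lt.1 hv2
    have hNp : (0 : ℝ) < N := lt_of_lt_of_le (by positivity) hNX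
    have hN1' : 1 ≤ N := by
      have : 0 < N := by exact_mod_cast hNp
      omega
    have h3l : (0 : ℝ) < 3 ^ v.length := by positivity
    have hle' : (N : ℝ) * 3 ^ v.length ≤ 2 ^ v.sum * a0 := by
      rw [hc00, ha0]
      have : ((3 ^ v.length * (3 * nd z v + 2) : ℤ) : ℝ) ≤
          ((2 ^ v.sum * (3 * z + 2) : ℤ) : ℝ) := by exact_mod_cast hle
      push_cast at this
      linarith
    have hNx : (N : ℝ) ≤ x := by
      have g1 : (N : ℝ) * 3 ^ v.length ≤ 2 * X * 3 ^ v.length * a0 :=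
        hle'.trans (mul_le_mul_of_nonneg_right h4.le (by linarith))
      have g2 : 2 * X * 3 ^ v.length * a0 = x * 3 ^ v.length := by
        rw [← hXx]
        ring
      rw [g2] at g1
      exact le_of_mul_le_mul_right g1 h3l
    have hl0 : (0 : ℝ) ≤ v.length := Nat.cast_nonneg _
    have h5' : |(v.sum : ℝ) - 2 * v.length| ≤ ε / 400 * v.length + C := h5.trans (by linarith)
    have h6' : |(Rw v : ℝ) - v.length / 2| ≤ ε / 400 * v.length + C := h6.trans (by linarith)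
    obtain ⟨w1, w2⟩ := FinG_word (by linarith : (0 : ℝ) ≤ ε / 400) hC hXp ha1 hθ0 hNX hle' h3 h4 h5'
    -- the length is large
    have hl2 : 800 * C' / ε ≤ v.length := by
      have g1 : B ≤ (1 + ε / 400) * v.length + C := hlogX.trans w2
      have g2 : (1 + ε / 400) * (v.length : ℝ) ≤ 2 * v.length :=
        mul_le_mul_of_nonneg_right (by linarith) hl0
      have g3 : 0 ≤ 2 * ((c0 : ℝ) + 1 + j0 + 8 * Real.log a0) / ε := by positivity
      have g4 := abs_nonneg (Real.log θ)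
      rw [hB] at g1
      linarith
    have hCl : C' ≤ ε / 800 * v.length := by
      rw [div_le_iff₀ hε] at hl2
      linarith
    have hCC : C ≤ C' := by
      have := abs_nonneg (Real.log θ)
      rw [hC']
      linarith
    have hlog : 2 * ((0 : ℝ) + ((c0 : ℝ) + 1) + 0 + j0 + 8 * Real.log a0) ≤ ε * Real.log N := by
      have g1 : Real.log θ + Real.log X ≤ Real.log N := by
        have := Real.log_le_log (mul_pos hθ0 hXp) hNX
        rw [Real.log_mul hθ0.ne' hXp.ne'] at this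
        exact this
      have g2 : 0 ≤ 2 * (800 * C' / ε) := by positivity
      have g4 := neg_abs_le (Real.log θ)
      have g5 : 2 * ((c0 : ℝ) + 1 + j0 + 8 * Real.log a0) / ε ≤ Real.log N := by
        rw [hB] at hlogX
        linarith
      rw [div_le_iff₀ hε] at g5
      linarith
    have hel0 : 0 ≤ ε / 800 * (v.length : ℝ) := by positivity
    have k1 : |Real.log N - Real.log a0 - v.length * Real.log (4 / 3)| ≤ ε / 100 * v.length := by
      refine w1.trans ?_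
      rw [← hC']
      linarith
    have k2 : |(Rw v : ℝ) - v.length / 2| ≤ 2 * (ε / 100) * v.length := by
      refine h6'.trans ?_
      linarith
    have k3 : |(v.sum : ℝ) - 2 * v.length| ≤ ε / 100 * v.length := by
      refine h5'.trans ?_
      linarith
    simp only [Finset.coe_filter, Set.mem_ofPred_eq, Finset.mem_Icc]
    refine ⟨⟨hN1', Nat.le_floor hNx⟩, ⟨im + v.sum, ?_⟩, fun hone => ?_⟩
    · rw [Function.iterate_add_apply, hhit, him]
    · obtain ⟨hcc, hj01, hj02⟩ := hcj hone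
      obtain ⟨c', hc1, hc2, hc3⟩ := hcirc hone
      obtain ⟨hj1, hj2⟩ := FinG_hit hhit hz5 hj01 hj02
      have hc2' : (Rw v : ℝ) ≤ c' := by
        have : Rw v ≤ c' := by omega
        exact_mod_cast this
      have hc3' : (c' : ℝ) ≤ Rw v + 0 + ((c0 : ℝ) + 1) := by
        have : c' ≤ Rw v + 0 + (c0 + 1) := by omega
        exact_mod_cast this
      have hsum : (((v.sum + j0 : ℕ)) : ℝ) = (0 : ℝ) + (v.sum : ℝ) + j0 := by
        rw [Nat.cast_add]
        ring
      obtain ⟨g1, g2⟩ := FinG_est (c := (c' : ℝ)) (r := (Rw v : ℝ)) (R0 := 0) (C := (c0 : ℝ) + 1)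
        (s := (v.sum : ℝ)) (s0 := 0) (j0 := (j0 : ℝ)) (j := ((v.sum + j0 : ℕ) : ℝ)) hε hε1.le
        hl0 hA hΛ k1 le_rfl (by positivity) k2 hc2' hc3' k3 le_rfl (Nat.cast_nonneg _) hsum hlog
      refine ⟨⟨c', hc1, ?_⟩, v.sum + j0, hj1, hj2, g2⟩
      rw [hΛ2]
      exact g1
  · intro v hv v' hv' h
    exact hinj v (mem_filter.1 (Finset.mem_coe.1 hv)).1 v' (mem_filter.1 (Finset.mem_coe.1 hv')).1 h

end Pool.Agent.helper82.PD
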