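import Pool.Agent.helper82.PD.Glue

/-!
# PD-Api: the interface between the part R (helper49) and the part F (helper82)
-/

namespace Pool.Agent.helper82.PD

open Finset Pool.Agent.helper14.EX1

/-- A good class of roots modulo `3 ^ n0`: for every root `x ≥ 0` in the class and every large `X` there are at least `c X`
words from `x` whose ratio `2 ^ sum / 3 ^ length` lies in `[X, 2 X)`, of typical slope and with a typical number of circuits. -/
theorem visits {e : ℝ} (he : 0 < e) (he1 : e ≤ 1 / 100) :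
    ∃ (n0 : ℕ) (r : ℤ) (C c : ℝ), 0 < c ∧ ∀ x : ℤ, 0 ≤ x → (3 : ℤ) ^ n0 ∣ x - r →
      ∃ X0 : ℝ, ∀ X : ℝ, X0 ≤ X → ∃ S : Finset (List ℕ),
        (∀ v ∈ S, (∀ k ∈ v, 1 ≤ k) ∧ Ala x v ∧
          X * 3 ^ v.length ≤ 2 ^ v.sum ∧ (2 : ℝ) ^ v.sum < 2 * X * 3 ^ v.length ∧
          |(v.sum : ℝ) - 2 * v.length| ≤ e * v.length + C ∧
          |(Rw v : ℝ) - v.length / 2| ≤ e * v.length + C) ∧
        c * X ≤ (S.card : ℝ) :=
  Glue_visits he he1

end Pool.Agent.helper82.PD
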