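import Pool.Agent.helper14.EX1.Cyc
import Pool.Agent.helper14.EX1.Wrd

/-!
# PD-Prim: the children of the node `5` meet every residue class modulo `3 ^ n`

The letter `k = 5 + 6 i` leads from `x = 1` to `(5 * 2 ^ k - 7) / 9`; the step `i ↦ i + 1` is `y ↦ 64 y + 49`, one cycle modulo
`3 ^ n` (`Cyc_aff_orbit_inj`).
-/

namespace Pool.Agent.helper82.PD

open Finset Pool.Agent.helper14.EX1

theorem Prim_val (i : ℕ) : Al (5 + 6 * i) 1 ∧ 9 * Tk (5 + 6 * i) 1 = 5 * 2 ^ (5 + 6 * i) - 7 := by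
  have h1 : (5 + 6 * i) % 2 = 1 := by omega
  have h3 := three_tk (k := 5 + 6 * i) (by omega)
  rw [if_pos h1] at h3
  have hd : ∃ y : ℤ, 5 * 2 ^ (5 + 6 * i) - 7 = 9 * y := by
    induction i with
    | zero => exact ⟨17, by norm_num⟩
    | succ i ih =>
      obtain ⟨y, hy⟩ := ih (by omega) (three_tk (k := 5 + 6 * i) (by omega) ▸ by
        rw [if_pos (by omega : (5 + 6 * i) % 2 = 1)])
      refine ⟨64 * y + 49, ?_⟩
      have : (2 : ℤ) ^ (5 + 6 * (i + 1)) = 64 * 2 ^ (5 + 6 * i) := by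
        rw [show 5 + 6 * (i + 1) = (5 + 6 * i) + 6 by ring, pow_add]
        ring
      rw [this]
      linarith
  obtain ⟨y, hy⟩ := hd
  have h4 : (2 : ℤ) ^ (5 + 6 * i) * 1 + tk (5 + 6 * i) = 3 * y := by
    rw [pow_succ] at h3
    linarith
  have hal : Al (5 + 6 * i) 1 := ⟨y, h4⟩
  refine ⟨hal, ?_⟩
  have h5 := Tk_eq hal
  rw [h4] at h5
  linarith

/-- Every class modulo `3 ^ n` contains the end of a letter from `x = 1`. -/
theorem prim (n : ℕ) (r : ℤ) : ∃ k : ℕ, 1 ≤ k ∧ Al k 1 ∧ (3 : ℤ) ^ n ∣ Tk k 1 - r := by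
  have hinj : Set.InjOn (fun i => (Cyc_aff n 64 49)^[i] 0) (range (3 ^ n) : Set ℕ) := by
    intro a ha b hb h
    rw [Finset.mem_coe, mem_range] at ha hb
    rcases le_total a b with h' | h'
    · exact Cyc_aff_orbit_inj n 64 49 (by norm_num) (by norm_num) h' hb h
    · exact (Cyc_aff_orbit_inj n 64 49 (by norm_num) (by norm_num) h' ha h.symm).symm
  have himg : (range (3 ^ n)).image (fun i => (Cyc_aff n 64 49)^[i] 0) = Finset.univ := by
    apply Finset.eq_univ_of_card
    rw [Finset.card_image_of_injOn hinj, card_range, ZMod.card]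
  have horb : ∀ i : ℕ, (Cyc_aff n 64 49)^[i] ((17 : ℤ) : ZMod (3 ^ n)) =
      ((Tk (5 + 6 * i) 1 : ℤ) : ZMod (3 ^ n)) := by
    intro i
    induction i with
    | zero =>
      have := (Prim_val 0).2
      norm_num at this ⊢
      have h17 : Tk 5 1 = 17 := by linarith
      rw [h17]
      norm_num
    | succ i ih =>
      rw [Function.iterate_succ_apply', ih]
      have e1 := (Prim_val i).2
      have e2 := (Prim_val (i + 1)).2
      have : (2 : ℤ) ^ (5 + 6 * (i + 1)) = 64 * 2 ^ (5 + 6 * i) := by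
        rw [show 5 + 6 * (i + 1) = (5 + 6 * i) + 6 by ring, pow_add]
        ring
      rw [this] at e2
      have e3 : Tk (5 + 6 * (i + 1)) 1 = 64 * Tk (5 + 6 * i) 1 + 49 := by linarith
      rw [e3, Cyc_aff]
      push_cast
      ring
  -- the point `17` is on the cycle of `0`
  have hsurj : ∀ z : ZMod (3 ^ n), ∃ i, (Cyc_aff n 64 49)^[i] 0 = z := by
    intro z
    have hz : z ∈ (range (3 ^ n)).image (fun i => (Cyc_aff n 64 49)^[i] 0) := by
      rw [himg]
      exact mem_univ z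
    obtain ⟨i, -, hi⟩ := mem_image.1 hz
    exact ⟨i, hi⟩
  obtain ⟨a, ha⟩ := hsurj ((17 : ℤ) : ZMod (3 ^ n))
  -- injectivity of the map, so the orbit of `17` is everything
  have hinj1 : Function.Injective (Cyc_aff n 64 49) := by
    have hs : Function.Surjective (Cyc_aff n 64 49) := by
      intro z
      have h64 : IsUnit ((64 : ℤ) : ZMod (3 ^ n)) := by
        rw [show ((64 : ℤ) : ZMod (3 ^ n)) = ((64 : ℕ) : ZMod (3 ^ n)) by norm_num]
        rw [ZMod.isUnit_iff_coprime]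
        exact Nat.Coprime.pow_right n (by norm_num)
      obtain ⟨u, hu⟩ := h64
      refine ⟨(↑u⁻¹ : ZMod (3 ^ n)) * (z - ((49 : ℤ) : ZMod (3 ^ n))), ?_⟩
      unfold Cyc_aff
      rw [← hu, ← mul_assoc, Units.mul_inv, one_mul]
      ring
    exact Finite.injective_iff_surjective.2 hs
  have hinjO : Set.InjOn (fun i => (Cyc_aff n 64 49)^[i] ((17 : ℤ) : ZMod (3 ^ n))) (range (3 ^ n) : Set ℕ) := by
    intro i hi j hj h
    have h' : (Cyc_aff n 64 49)^[i] ((Cyc_aff n 64 49)^[a] 0) =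
        (Cyc_aff n 64 49)^[j] ((Cyc_aff n 64 49)^[a] 0) := by
      rw [ha]
      exact h
    rw [← Function.iterate_add_apply, ← Function.iterate_add_apply, add_comm i, add_comm j,
      Function.iterate_add_apply, Function.iterate_add_apply] at h'
    exact hinj hi hj (hinj1.iterate a h')
  have himgO : (range (3 ^ n)).image (fun i => (Cyc_aff n 64 49)^[i] ((17 : ℤ) : ZMod (3 ^ n))) =
      Finset.univ := by
    apply Finset.eq_univ_of_card
    rw [Finset.card_image_of_injOn hinjO, card_range, ZMod.card]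
  have hr : ((r : ℤ) : ZMod (3 ^ n)) ∈
      (range (3 ^ n)).image (fun i => (Cyc_aff n 64 49)^[i] ((17 : ℤ) : ZMod (3 ^ n))) := by
    rw [himgO]
    exact mem_univ _
  obtain ⟨i, -, hi⟩ := mem_image.1 hr
  refine ⟨5 + 6 * i, by omega, (Prim_val i).1, ?_⟩
  rw [horb i] at hi
  have h6 := (ZMod.intCast_eq_intCast_iff_dvd_sub _ _ _).1 hi.symm
  exact_mod_cast h6

end Pool.Agent.helper82.PD
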