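import Pool.Agent.helper49.PDR.Strip
import Pool.Agent.helper82.PD.Rul

/-!
# PD-Glue: `visits` from the theorem of the part R
-/

namespace Pool.Agent.helper82.PD

open Finset Pool.Agent.helper14.EX1 Pool.Agent.helper49.PDR

theorem Glue_visits {e : ℝ} (he : 0 < e) (he1 : e ≤ 1 / 100) :
    ∃ (n0 : ℕ) (r : ℤ) (C c : ℝ), 0 < c ∧ ∀ x : ℤ, 0 ≤ x → (3 : ℤ) ^ n0 ∣ x - r →
      ∃ X0 : ℝ, ∀ X : ℝ, X0 ≤ X → ∃ S : Finset (List ℕ),
        (∀ v ∈ S, (∀ k ∈ v, 1 ≤ k) ∧ Ala x v ∧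
          X * 3 ^ v.length ≤ 2 ^ v.sum ∧ (2 : ℝ) ^ v.sum < 2 * X * 3 ^ v.length ∧
          |(v.sum : ℝ) - 2 * v.length| ≤ e * v.length + C ∧
          |(Rw v : ℝ) - v.length / 2| ≤ e * v.length + C) ∧
        c * X ≤ (S.card : ℝ) := by
  obtain ⟨C, ρ, hC, hρ, hρ1, R, hR⟩ := exists_rule he he1
  obtain ⟨i0, n0, hi, r, X0, hX0, H⟩ := strip_mass hC hρ hρ1 R
  refine ⟨n0, r, 0, 1 / 16, by norm_num, fun x _ hx => ⟨X0, fun X hX => ?_⟩⟩
  obtain ⟨W, hW, hm⟩ := H x hx X hX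
  have hXp : 0 < X := by linarith
  refine ⟨W, fun v hv => ?_, ?_⟩
  · obtain ⟨h1, h2, h3, h4, h5, h6⟩ := hW v hv
    have h7 : Typ e v := by
      have := h4 v.length (hi.trans h1) le_rfl
      rw [List.take_length, hR] at this
      exact this
    refine ⟨h2, h3, h5, h6, ?_, ?_⟩
    · have := h7.1
      linarith
    · have := h7.2
      linarith
  · have h1 : ∀ w ∈ W, ww w ≤ 1 / X := by
      intro w hw
      obtain ⟨-, -, -, -, h5, -⟩ := hW w hw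
      unfold ww
      rw [div_le_div_iff₀ (by positivity) hXp]
      linarith
    have h2 : ∑ w ∈ W, ww w ≤ W.card * (1 / X) := by
      have := sum_le_card_nsmul W ww (1 / X) h1
      rwa [nsmul_eq_mul] at this
    have h3 : (1 : ℝ) / 16 ≤ W.card * (1 / X) := hm.trans h2
    rw [mul_one_div, le_div_iff₀ hXp] at h3
    exact h3

end Pool.Agent.helper82.PD
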